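import Pool.Agent.Helper95.Riesz.SDefs
import Pool.Agent.Helper9.Riesz.Const
import Pool.Agent.Helper27.Riesz.Haar

/-! # Riesz energy: the average of a Gaussian over the sphere (module AVG) -/

set_option autoImplicit false
open MeasureTheory Set Filter Topology
open scoped ENNReal NNReal

namespace Helper23.Riesz

variable {s : ℝ} {d : ℕ}

namespace AvgAux

/-- the radial change of variables -/
noncomputable def ph (ρ : ℝ) : ℝ := 2 * ρ / √(1 + ρ ^ 2)

noncomputable def ph' (ρ : ℝ) : ℝ := 2 / ((1 + ρ ^ 2) * √(1 + ρ ^ 2))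

lemma hasDerivAt_ph (ρ : ℝ) : HasDerivAt ph (ph' ρ) ρ := by
  have hp : (0:ℝ) < 1 + ρ ^ 2 := by positivity
  have hs : 0 < √(1 + ρ ^ 2) := Real.sqrt_pos.2 hp
  have h1 : HasDerivAt (fun ρ : ℝ => 1 + ρ ^ 2) (2 * ρ) ρ := by
    simpa using (hasDerivAt_pow 2 ρ).const_add 1
  have h2 := h1.sqrt hp.ne'
  have h3 : HasDerivAt (fun ρ : ℝ => 2 * ρ) 2 ρ := by
    simpa using (hasDerivAt_id ρ).const_mul 2
  have h4 := h3.div h2 hs.ne'
  refine h4.congr_deriv ?_
  unfold ph'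
  have hsq : √(1 + ρ ^ 2) ^ 2 = 1 + ρ ^ 2 := Real.sq_sqrt hp.le
  rw [div_eq_div_iff (by positivity) (by positivity)]
  field_simp
  rw [hsq]
  ring

lemma ph_sq (ρ : ℝ) : ph ρ ^ 2 = 4 * ρ ^ 2 / (1 + ρ ^ 2) := by
  unfold ph
  rw [div_pow, Real.sq_sqrt (by positivity)]
  ring

lemma ph_pos {ρ : ℝ} (h : 0 < ρ) : 0 < ph ρ := by
  unfold ph; positivity

lemma injOn_ph : InjOn ph (Ioi (0:ℝ)) := by
  intro a ha b hb h
  have ha' : (0:ℝ) < a := ha
  have hb' : (0:ℝ) < b := hb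
  have h1 : 4 * a ^ 2 / (1 + a ^ 2) = 4 * b ^ 2 / (1 + b ^ 2) := by rw [← ph_sq, ← ph_sq, h]
  rw [div_eq_div_iff (by positivity) (by positivity)] at h1
  have h2 : a ^ 2 = b ^ 2 := by linarith
  exact (pow_left_inj₀ ha'.le hb'.le (by norm_num)).1 h2

lemma pointwise {k : ℕ} (hk : 1 ≤ k) {t ρ : ℝ} (hρ : 0 < ρ) :
    ρ ^ k * ((2 / (1 + ρ ^ 2)) ^ (k + 1) * Real.exp (-(t * (4 * ρ ^ 2 / (1 + ρ ^ 2))))) ≤
      |ph' ρ| * (ph ρ ^ k * Real.exp (-(t * ph ρ ^ 2))) := by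
  have hp : (0:ℝ) < 1 + ρ ^ 2 := by positivity
  rw [ph_sq]
  have habs : |ph' ρ| = ph' ρ := abs_of_pos (by unfold ph'; positivity)
  rw [habs, ← mul_assoc, ← mul_assoc]
  refine mul_le_mul_of_nonneg_right ?_ (Real.exp_nonneg _)
  unfold ph' ph
  set s := √(1 + ρ ^ 2) with hsdef
  have hs2 : 1 + ρ ^ 2 = s ^ 2 := (Real.sq_sqrt hp.le).symm
  have hs : 0 < s := Real.sqrt_pos.2 hp
  have hs1 : 1 ≤ s := by
    rw [hsdef, Real.one_le_sqrt]
    nlinarith [sq_nonneg ρ]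
  rw [hs2]
  have e1 : ρ ^ k * (2 / s ^ 2) ^ (k + 1) = (2 ^ (k+1) * ρ ^ k) / s ^ (2 * (k + 1)) := by
    rw [div_pow, ← pow_mul]
    ring
  have e2 : 2 / (s ^ 2 * s) * (2 * ρ / s) ^ k = (2 ^ (k+1) * ρ ^ k) / s ^ (k + 3) := by
    rw [div_pow, mul_pow, div_mul_div_comm, show s ^ 2 * s * s ^ k = s ^ (k+3) by ring]
    ring
  rw [e1, e2]
  refine div_le_div_of_nonneg_left (by positivity) (by positivity) ?_
  exact pow_le_pow_right₀ hs1 (by omega)

lemma lintegral_le {k : ℕ} (hk : 1 ≤ k) (t : ℝ) :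
    ∫⁻ ρ in Ioi (0:ℝ), ENNReal.ofReal
      (ρ ^ k * ((2 / (1 + ρ ^ 2)) ^ (k + 1) * Real.exp (-(t * (4 * ρ ^ 2 / (1 + ρ ^ 2)))))) ≤
    ∫⁻ u in Ioi (0:ℝ), ENNReal.ofReal (u ^ k * Real.exp (-(t * u ^ 2))) := by
  calc ∫⁻ ρ in Ioi (0:ℝ), ENNReal.ofReal
        (ρ ^ k * ((2 / (1 + ρ ^ 2)) ^ (k + 1) * Real.exp (-(t * (4 * ρ ^ 2 / (1 + ρ ^ 2))))))
      ≤ ∫⁻ ρ in Ioi (0:ℝ), ENNReal.ofReal |ph' ρ| *
          ENNReal.ofReal (ph ρ ^ k * Real.exp (-(t * ph ρ ^ 2))) := by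
        refine setLIntegral_mono' measurableSet_Ioi fun ρ hρ => ?_
        rw [← ENNReal.ofReal_mul (abs_nonneg _)]
        exact ENNReal.ofReal_le_ofReal (pointwise hk hρ)
    _ = ∫⁻ u in ph '' Ioi (0:ℝ), ENNReal.ofReal (u ^ k * Real.exp (-(t * u ^ 2))) :=
        (lintegral_image_eq_lintegral_abs_deriv_mul measurableSet_Ioi
          (fun x _ => (hasDerivAt_ph x).hasDerivWithinAt) injOn_ph
          (fun u => ENNReal.ofReal (u ^ k * Real.exp (-(t * u ^ 2))))).symm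
    _ ≤ ∫⁻ u in Ioi (0:ℝ), ENNReal.ofReal (u ^ k * Real.exp (-(t * u ^ 2))) := by
        refine lintegral_mono_set ?_
        rintro _ ⟨ρ, hρ, rfl⟩
        exact ph_pos hρ

lemma lintegral_norm {k : ℕ} {f : ℝ → ℝ} (hf : ∀ r, 0 ≤ f r)
    (hi : Integrable (fun y : R (k+1) => f ‖y‖)) :
    ∫⁻ y : R (k+1), ENNReal.ofReal (f ‖y‖) =
      ENNReal.ofReal ((k+1 : ℕ) * (volume : Measure (R (k+1))).real (Metric.ball 0 1)) *
        ∫⁻ r in Ioi (0:ℝ), ENNReal.ofReal (r ^ k * f r) := by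
  have : Nontrivial (R (k+1)) := by
    refine Module.nontrivial_of_finrank_pos (R := ℝ) ?_
    simp
  have h1 := integral_fun_norm_addHaar (volume : Measure (R (k+1))) f
  have h2 := (integrable_fun_norm_addHaar (volume : Measure (R (k+1)))).1 hi
  rw [finrank_euclideanSpace, Fintype.card_fin, Nat.add_sub_cancel] at h1 h2
  rw [← ofReal_integral_eq_lintegral_ofReal hi (Eventually.of_forall fun y => hf _), h1]
  simp only [smul_eq_mul, nsmul_eq_mul] at h2 ⊢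
  rw [← mul_assoc, ENNReal.ofReal_mul (by positivity), ofReal_integral_eq_lintegral_ofReal h2]
  refine (ae_restrict_iff' measurableSet_Ioi).2 (Eventually.of_forall fun r hr => ?_)
  have : (0:ℝ) < r := hr
  exact mul_nonneg (by positivity) (hf r)

end AvgAux

open AvgAux

theorem avg_gauss_le (hd : 2 ≤ d) {t : ℝ} (ht : 0 < t) :
    avg2 (fun x y : S d => Real.exp (-(t * dist x y ^ 2))) ≤
      (Real.pi / t) ^ ((d : ℝ) / 2) / omega d := by
  have hd1 : 1 ≤ d := by omega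
  obtain ⟨k, rfl⟩ : ∃ k, d = k + 1 := ⟨d - 1, by omega⟩
  have hk : 1 ≤ k := by omega
  have hω := omega_pos hd1
  have : Nontrivial (R (k+1)) := by
    refine Module.nontrivial_of_finrank_pos (R := ℝ) ?_
    simp
  rw [← zonal (fun r => Real.exp (-(t * r ^ 2))) (Th (0 : R (k+1)))]
  have hmeas : Measurable (fun y : S (k+1) => Real.exp (-(t * dist (Th (0 : R (k+1))) y ^ 2))) := by
    have : Measurable (fun y : S (k+1) => dist (Th (0 : R (k+1))) y) :=
      measurable_const.dist measurable_id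
    fun_prop
  rw [integral_eq_lintegral_of_nonneg_ae (Eventually.of_forall fun y => by positivity)
    hmeas.aestronglyMeasurable, lintegral_sig hd1 _ hmeas.ennreal_ofReal]
  -- the integrand in stereographic coordinates
  have e1 : ∀ y : R (k+1), ENNReal.ofReal (lam y ^ (k+1)) *
      ENNReal.ofReal (Real.exp (-(t * dist (Th (0 : R (k+1))) (Th y) ^ 2))) =
      ENNReal.ofReal ((2 / (1 + ‖y‖ ^ 2)) ^ (k + 1) *
        Real.exp (-(t * (4 * ‖y‖ ^ 2 / (1 + ‖y‖ ^ 2))))) := by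
    intro y
    have hl := lam_pos y
    rw [← ENNReal.ofReal_mul (by positivity)]
    congr 1
    have h1 : dist (Th (0 : R (k+1))) (Th y) ^ 2 = 4 * ‖y‖ ^ 2 / (1 + ‖y‖ ^ 2) := by
      rw [dist_Th_sq, lam_zero, dist_zero_left, lam]
      ring
    rw [h1, lam]
  simp only [e1]
  have hle : ∫⁻ y : R (k+1), ENNReal.ofReal ((2 / (1 + ‖y‖ ^ 2)) ^ (k + 1) *
        Real.exp (-(t * (4 * ‖y‖ ^ 2 / (1 + ‖y‖ ^ 2))))) ≤
      ENNReal.ofReal ((Real.pi / t) ^ (((k + 1 : ℕ) : ℝ) / 2)) := by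
    have hi1 : Integrable (fun y : R (k+1) => Real.exp (-(t * ‖y‖ ^ 2))) := by
      have h1 := GaussianFourier.integral_rexp_neg_mul_sq_norm (V := R (k+1)) ht
      simp only [neg_mul] at h1
      by_contra hcon
      rw [integral_undef hcon] at h1
      have : 0 < (Real.pi / t) ^ (((Module.finrank ℝ (R (k+1))) : ℝ) / 2) := by
        have := Real.pi_pos
        positivity
      linarith
    have hi2 : Integrable (fun y : R (k+1) => (2 / (1 + ‖y‖ ^ 2)) ^ (k + 1) *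
        Real.exp (-(t * (4 * ‖y‖ ^ 2 / (1 + ‖y‖ ^ 2))))) := by
      refine (integrable_lam_pow hd1).mono ?_ (Eventually.of_forall fun y => ?_)
      · refine Measurable.aestronglyMeasurable ?_
        fun_prop
      · have h1 : Real.exp (-(t * (4 * ‖y‖ ^ 2 / (1 + ‖y‖ ^ 2)))) ≤ 1 := by
          rw [Real.exp_le_one_iff]
          have : 0 ≤ t * (4 * ‖y‖ ^ 2 / (1 + ‖y‖ ^ 2)) := by positivity
          linarith
        rw [Real.norm_of_nonneg (by positivity), Real.norm_of_nonneg (by have := lam_pos y; positivity)]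
        exact mul_le_of_le_one_right (by positivity) h1
    rw [← lintegral_gauss (k+1) ht,
      lintegral_norm (k := k) (f := fun r => Real.exp (-(t * r ^ 2))) (fun r => (Real.exp_pos _).le) hi1,
      lintegral_norm (k := k) (f := fun r => (2 / (1 + r ^ 2)) ^ (k + 1) *
        Real.exp (-(t * (4 * r ^ 2 / (1 + r ^ 2))))) (fun r => by positivity) hi2]
    exact mul_le_mul' le_rfl (lintegral_le hk t)
  have hpi : 0 ≤ (Real.pi / t) ^ (((k + 1 : ℕ) : ℝ) / 2) := by positivity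
  calc (ENNReal.ofReal (1 / omega (k + 1)) * ∫⁻ y : R (k+1), ENNReal.ofReal
        ((2 / (1 + ‖y‖ ^ 2)) ^ (k + 1) *
        Real.exp (-(t * (4 * ‖y‖ ^ 2 / (1 + ‖y‖ ^ 2)))))).toReal
      ≤ (ENNReal.ofReal (1 / omega (k + 1)) *
          ENNReal.ofReal ((Real.pi / t) ^ (((k + 1 : ℕ) : ℝ) / 2))).toReal := by
        refine ENNReal.toReal_mono (by finiteness) ?_
        gcongr
    _ = (Real.pi / t) ^ (((k + 1 : ℕ) : ℝ) / 2) / omega (k + 1) := by
        rw [← ENNReal.ofReal_mul (by positivity), ENNReal.toReal_ofReal (by positivity)]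
        ring

end Helper23.Riesz
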