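import Pool.Agent.Helper95.Riesz.SDefs

/-! # Riesz energy: scaling of the cell (module SCALE) -/

set_option autoImplicit false
open MeasureTheory Set Filter Topology
open scoped ENNReal NNReal

namespace Helper23.Riesz

variable {s : ℝ} {d : ℕ}

namespace ScaleAux

lemma me {M : ℝ} (hM : 0 < M) : MeasurableEmbedding (fun x : R d => M • x) :=
  (Homeomorph.smulOfNeZero M hM.ne').measurableEmbedding

lemma vol_pre {M : ℝ} (hM : 0 < M) (B : Set (R d)) :
    (volume : Measure (R d)) ((fun x : R d => M • x) ⁻¹' B) =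
      ENNReal.ofReal ((M ^ d)⁻¹) * volume B := by
  rw [Measure.addHaar_preimage_smul _ hM.ne', finrank_euclideanSpace, Fintype.card_fin,
    abs_of_pos (by positivity)]

lemma pre_cubo {M : ℝ} (hM : 0 < M) :
    (fun x : R d => M • x) ⁻¹' cubo 0 M = cubo 0 1 := by
  ext x
  simp only [mem_preimage, cubo, mem_ofPred_eq, PiLp.smul_apply, smul_eq_mul, PiLp.zero_apply,
    zero_add]
  refine forall_congr' fun k => ?_
  constructor
  · rintro ⟨h1, h2⟩
    exact ⟨by by_contra h; push Not at h; nlinarith, by by_contra h; push Not at h; nlinarith⟩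
  · rintro ⟨h1, h2⟩
    exact ⟨by positivity, by nlinarith⟩

lemma vol_restrict {M : ℝ} (hM : 0 < M) {A : Set (R d)} (hA : MeasurableSet A) :
    (volume : Measure (R d)).restrict (cubo 0 1) ((fun x : R d => M • x) ⁻¹' A) =
      ENNReal.ofReal ((M ^ d)⁻¹) * (volume : Measure (R d)).restrict (cubo 0 M) A := by
  rw [Measure.restrict_apply ((me hM).measurable hA), Measure.restrict_apply hA,
    ← pre_cubo hM, ← preimage_inter, vol_pre hM]

lemma map_muM {n : ℕ} {M : ℝ} (hM : 0 < M) (v : Fin n → R d) (w : Fin n → ℝ) (r : ℝ) :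
    Measure.map (fun x : R d => M • x) (muM 1 v w r) = muM M (fun i => M • v i) w r := by
  ext A hA
  rw [(me hM).map_apply]
  unfold muM unifM
  simp only [Measure.add_apply, Measure.coe_finset_sum, Finset.sum_apply, Measure.smul_apply,
    smul_eq_mul, vol_restrict hM hA, Measure.dirac_apply' _ hA,
    Measure.dirac_apply' _ ((me hM).measurable hA)]
  congr 1
  rw [Real.one_rpow, ENNReal.ofReal_one, one_mul, Real.rpow_neg hM.le, Real.rpow_natCast]

lemma Im_map {M : ℝ} (hM : 0 < M) (μ ν : Measure (R d)) :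
    Im s (Measure.map (fun x : R d => M • x) μ) (Measure.map (fun x : R d => M • x) ν) =
      M ^ (-s) * Im s μ ν := by
  unfold Im
  rw [(me hM).integral_map]
  simp only [(me hM).integral_map]
  rw [← integral_const_mul]
  congr 1
  ext x
  rw [← integral_const_mul]
  congr 1
  ext y
  rw [dist_smul₀, Real.norm_of_nonneg hM.le, Real.mul_rpow hM.le dist_nonneg]

end ScaleAux

open ScaleAux

theorem scale_cell (hd : 1 ≤ d) (hs : -2 < s) (hs0 : s < 0) {Lam ε : ℝ} (hε : 0 < ε)
    (h : HasCellU s d Lam ε) : HasCell s d Lam ε := by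
  obtain ⟨M, n, O, mO, P, v, w, r, b, mbar, hM, hP, hv, hw, hr, hw1, hr0, hc, hb, hbM, hm, hmle,
    hfrac, hIm⟩ := h
  have hM0 : 0 < M := lt_of_lt_of_le (by positivity) hM
  refine ⟨M, n, O, mO, P, fun o i => M • v o i, w, r, b,
    Measure.map (fun x : R d => M • x) mbar, hM, hP, ?_, hw, hr, hw1, hr0, ?_, hb, hbM, ?_, ?_,
    hfrac, ?_⟩
  · intro i
    exact (hv i).const_smul M
  · intro o i hi
    have h1 := hc o i hi
    rw [← pre_cubo hM0] at h1
    exact h1
  · intro A hA
    rw [(me hM0).map_apply, hm _ ((me hM0).measurable hA)]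
    refine lintegral_congr fun o => ?_
    rw [← map_muM hM0, (me hM0).map_apply]
  · rw [Measure.le_iff]
    intro A hA
    rw [(me hM0).map_apply]
    refine (hmle _).trans ?_
    rw [Measure.smul_apply, Measure.smul_apply, smul_eq_mul, smul_eq_mul, vol_restrict hM0 hA,
      ← mul_assoc, ← ENNReal.ofReal_mul (by positivity), mul_assoc,
      mul_inv_cancel₀ (by positivity), mul_one]
  · simp only [← map_muM hM0, Im_map hM0]
    rw [integral_const_mul, ← mul_sub]
    calc M ^ (-s) * (Im s mbar mbar - ∫ o, Im s (muM 1 (v o) (w o) (r o)) (muM 1 (v o) (w o) (r o)) ∂P)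
        ≤ M ^ (-s) * ((Lam + ε) * M ^ (d + s)) := by
          exact mul_le_mul_of_nonneg_left hIm (by positivity)
      _ = (Lam + ε) * M ^ d := by
          rw [mul_left_comm, ← Real.rpow_add hM0]
          congr 1
          rw [show -s + (d + s) = (d:ℝ) by ring, Real.rpow_natCast]

end Helper23.Riesz
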